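import Pool.Agent.Y298.LC.Stm

/-! Project LC (helper298), part ANG1: few close returns of almost every angle. -/

set_option autoImplicit false

namespace Pool.Agent.Y274.LC.Ang1

open MeasureTheory Filter ProbabilityTheory Set

/-- Lebesgue measure on the unit interval -/
noncomputable def ν : Measure ℝ := volume.restrict (Ioc 0 1)

instance : IsProbabilityMeasure ν := ⟨by simp [ν]⟩

/-- `q θ` is close to an integer -/
def E (q δ : ℝ) : Set ℝ := {θ | ∃ j : ℤ, |q * θ - j| < δ}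

theorem E_open (q δ : ℝ) : IsOpen (E q δ) := by
  have h : E q δ = ⋃ j : ℤ, {θ | |q * θ - j| < δ} := by
    ext θ
    simp [E]
  rw [h]
  exact isOpen_iUnion fun j => isOpen_lt (by fun_prop) continuous_const

theorem E_meas (q δ : ℝ) : MeasurableSet (E q δ) := (E_open q δ).measurableSet

theorem nu_E {q : ℕ} (hq : 1 ≤ q) {δ : ℝ} (h0 : 0 < δ) (h1 : δ ≤ 1 / 2) :
    ν.real (E q δ) = 2 * δ := by
  have e1 : E q δ = (fun θ : ℝ => (θ : UnitAddCircle)) ⁻¹'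
      ((fun y : UnitAddCircle => (q : ℤ) • y) ⁻¹' Metric.ball 0 δ) := by
    ext θ
    simp only [mem_preimage, mem_ball_zero_iff]
    have h2 : ((q : ℤ) • ((θ : ℝ) : UnitAddCircle)) = ((q * θ : ℝ) : UnitAddCircle) := by
      rw [← AddCircle.coe_zsmul]
      simp
    rw [h2, UnitAddCircle.norm_eq]
    constructor
    · rintro ⟨j, hj⟩
      exact (round_le _ j).trans_lt hj
    · intro h
      exact ⟨round (q * θ), h⟩
  have hmeas : MeasurableSet ((fun y : UnitAddCircle => (q : ℤ) • y) ⁻¹' Metric.ball 0 δ) :=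
    (Measure.measurePreserving_zsmul (volume : Measure UnitAddCircle)
      (by exact_mod_cast (by omega : q ≠ 0) : (q : ℤ) ≠ 0)).measurable Metric.isOpen_ball.measurableSet
  have e2 : ν (E q δ) = ENNReal.ofReal (2 * δ) := by
    have h3 := (UnitAddCircle.measurePreserving_mk 0).measure_preimage hmeas.nullMeasurableSet
    have h4 := (Measure.measurePreserving_zsmul (volume : Measure UnitAddCircle)
      (by exact_mod_cast (by omega : q ≠ 0) : (q : ℤ) ≠ 0)).measure_preimage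
        (Metric.isOpen_ball (x := (0 : UnitAddCircle)) (ε := δ)).measurableSet.nullMeasurableSet
    rw [zero_add] at h3
    unfold ν
    rw [e1, h3, h4, ← measure_congr AddCircle.closedBall_ae_eq_ball, AddCircle.volume_closedBall,
      min_eq_right (by linarith)]
  rw [measureReal_def, e2, ENNReal.toReal_ofReal (by linarith)]

theorem cover {q' α β δ' : ℝ} (hq : 0 < q') (h0 : 0 < δ') (h1 : δ' ≤ 1 / 2) (hab : α ≤ β) :
    ν.real (Ioo α β ∩ E q' δ') ≤ 2 * δ' * (β - α) + 4 * δ' / q' := by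
  have hsub : Ioo α β ∩ E q' δ' ⊆ ⋃ n ∈ Finset.Icc ⌈q' * α - δ'⌉ ⌊q' * β + δ'⌋,
      Ioo (((n : ℝ) - δ') / q') ((n + δ') / q') := by
    rintro θ ⟨⟨ha, hb⟩, j, hj⟩
    rw [abs_lt] at hj
    simp only [mem_iUnion]
    refine ⟨j, Finset.mem_Icc.2 ⟨?_, ?_⟩, ?_, ?_⟩
    · rw [Int.ceil_le]
      nlinarith
    · rw [Int.le_floor]
      nlinarith
    · rw [div_lt_iff₀ hq]
      linarith
    · rw [lt_div_iff₀ hq]
      linarith
  have h2 : ∀ n : ℤ, ν.real (Ioo (((n : ℝ) - δ') / q') ((n + δ') / q')) ≤ 2 * δ' / q' := by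
    intro n
    have h3 : ν (Ioo (((n : ℝ) - δ') / q') ((n + δ') / q')) ≤ ENNReal.ofReal (2 * δ' / q') := by
      refine (Measure.restrict_le_self _).trans (le_of_eq ?_)
      rw [Real.volume_Ioo]
      congr 1
      field_simp
      ring
    exact ENNReal.toReal_le_of_le_ofReal (by positivity) h3
  have hcard : (((Finset.Icc ⌈q' * α - δ'⌉ ⌊q' * β + δ'⌋).card : ℕ) : ℝ) ≤
      q' * (β - α) + 2 * δ' + 1 := by
    rw [Int.card_Icc]
    have h4 : (((⌊q' * β + δ'⌋ + 1 - ⌈q' * α - δ'⌉).toNat : ℕ) : ℝ) =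
        ((((⌊q' * β + δ'⌋ + 1 - ⌈q' * α - δ'⌉).toNat : ℕ) : ℤ) : ℝ) := by push_cast; rfl
    rw [h4, Int.toNat_eq_max]
    push_cast
    refine max_le ?_ ?_
    · have := Int.floor_le (q' * β + δ')
      have := Int.le_ceil (q' * α - δ')
      linarith
    · have : 0 ≤ q' * (β - α) := mul_nonneg hq.le (by linarith)
      linarith
  calc ν.real (Ioo α β ∩ E q' δ')
      ≤ ν.real (⋃ n ∈ Finset.Icc ⌈q' * α - δ'⌉ ⌊q' * β + δ'⌋,
          Ioo (((n : ℝ) - δ') / q') ((n + δ') / q')) := measureReal_mono hsub (measure_ne_top _ _)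
    _ ≤ ∑ n ∈ Finset.Icc ⌈q' * α - δ'⌉ ⌊q' * β + δ'⌋,
          ν.real (Ioo (((n : ℝ) - δ') / q') ((n + δ') / q')) := measureReal_biUnion_finset_le _ _
    _ ≤ ∑ n ∈ Finset.Icc ⌈q' * α - δ'⌉ ⌊q' * β + δ'⌋, 2 * δ' / q' :=
        Finset.sum_le_sum fun n _ => h2 n
    _ = (((Finset.Icc ⌈q' * α - δ'⌉ ⌊q' * β + δ'⌋).card : ℕ) : ℝ) * (2 * δ' / q') := by
        rw [Finset.sum_const, nsmul_eq_mul]
    _ ≤ (q' * (β - α) + 2 * δ' + 1) * (2 * δ' / q') :=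
        mul_le_mul_of_nonneg_right hcard (by positivity)
    _ = 2 * δ' * (β - α) + (2 * δ' + 1) * (2 * δ') / q' := by
        field_simp
        ring
    _ ≤ _ := by
        have : (2 * δ' + 1) * (2 * δ') / q' ≤ 4 * δ' / q' := by
          apply div_le_div_of_nonneg_right _ hq.le
          nlinarith
        linarith

theorem pair {q : ℕ} (hq : 1 ≤ q) {q' : ℝ} (hq' : 0 < q') {δ δ' : ℝ} (h0 : 0 < δ) (h1 : δ ≤ 1 / 2)
    (h0' : 0 < δ') (h1' : δ' ≤ 1 / 2) :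
    ν.real (E q δ ∩ E q' δ') ≤ (q + 1) * (4 * δ * δ' / q + 4 * δ' / q') := by
  have hq0 : (0 : ℝ) < q := by exact_mod_cast hq
  have hae : (E q δ ∩ E q' δ' : Set ℝ) ≤ᵐ[ν] (⋃ n ∈ Finset.range (q + 1),
      (Ioo (((n : ℝ) - δ) / q) ((n + δ) / q) ∩ E q' δ') : Set ℝ) := by
    unfold ν
    filter_upwards [ae_restrict_mem measurableSet_Ioc] with θ hθ hmem
    obtain ⟨⟨j, hj⟩, hE⟩ := hmem
    rw [abs_lt] at hj
    have hj1 : (-1 : ℤ) < j := by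
      have : (-1 : ℝ) < j := by nlinarith [mul_pos hq0 hθ.1]
      exact_mod_cast this
    have hj2 : j < q + 1 := by
      have : (j : ℝ) < q + 1 := by nlinarith [mul_le_mul_of_nonneg_left hθ.2 hq0.le]
      exact_mod_cast this
    obtain ⟨n, rfl⟩ : ∃ n : ℕ, j = n := ⟨j.toNat, by omega⟩
    show θ ∈ (⋃ n ∈ Finset.range (q + 1),
      (Ioo (((n : ℝ) - δ) / q) ((n + δ) / q) ∩ E q' δ') : Set ℝ)
    simp only [mem_iUnion]
    refine ⟨n, Finset.mem_range.2 (by omega), ⟨?_, ?_⟩, hE⟩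
    · rw [div_lt_iff₀ hq0]
      push_cast at hj
      linarith
    · rw [lt_div_iff₀ hq0]
      push_cast at hj
      linarith
  have h2 : ν.real (E q δ ∩ E q' δ') ≤ ν.real (⋃ n ∈ Finset.range (q + 1),
      (Ioo (((n : ℝ) - δ) / q) ((n + δ) / q) ∩ E q' δ')) := by
    rw [measureReal_def, measureReal_def]
    exact ENNReal.toReal_mono (measure_ne_top _ _) (measure_mono_ae hae)
  calc ν.real (E q δ ∩ E q' δ') ≤ _ := h2
    _ ≤ ∑ n ∈ Finset.range (q + 1), ν.real (Ioo (((n : ℝ) - δ) / q) ((n + δ) / q) ∩ E q' δ') :=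
        measureReal_biUnion_finset_le _ _
    _ ≤ ∑ n ∈ Finset.range (q + 1), (4 * δ * δ' / q + 4 * δ' / q') := by
        refine Finset.sum_le_sum fun n _ => ?_
        refine (cover hq' h0' h1' ?_).trans (le_of_eq ?_)
        · apply div_le_div_of_nonneg_right _ hq0.le
          linarith
        · congr 1
          field_simp
          ring
    _ = _ := by
        rw [Finset.sum_const, nsmul_eq_mul, Finset.card_range]
        push_cast
        ring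

/-- the ratio -/
noncomputable def r : ℝ := √(1 / 2)

theorem r_sq : r ^ 2 = 1 / 2 := Real.sq_sqrt (by norm_num)

theorem r_pos : 0 < r := Real.sqrt_pos.2 (by norm_num)

theorem r_lt : r < 1 := by
  have := r_sq
  have := r_pos
  nlinarith

theorem r_pow_sq (n : ℕ) : (r ^ n) ^ 2 = (1 / 2 : ℝ) ^ n := by
  rw [← pow_mul, mul_comm, pow_mul, r_sq]

theorem pair_lt {d : ℕ} (hd : 2 ≤ d) {x x' : ℝ} (h0 : 0 < x) (h1 : x ^ 2 ≤ 1 / 2)
    (h0' : 0 < x') (h1' : x' ^ 2 ≤ 1 / 2) {i t : ℕ} (hi : 1 ≤ i) (ht : 1 ≤ t) :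
    ν.real (E ((d : ℝ) ^ i - 1) (x ^ 2) ∩ E ((d : ℝ) ^ (i + t) - 1) (x' ^ 2)) -
      2 * x ^ 2 * (2 * x' ^ 2) ≤ 8 * x * x' * (r ^ i + r ^ t) := by
  have hd2 : (2 : ℝ) ≤ d := by exact_mod_cast hd
  have hdi : 2 ^ i ≤ d ^ i := Nat.pow_le_pow_left hd i
  have h2i : 2 ≤ 2 ^ i := by
    calc 2 = 2 ^ 1 := rfl
      _ ≤ 2 ^ i := Nat.pow_le_pow_right (by norm_num) hi
  obtain ⟨q, hq⟩ : ∃ q : ℕ, d ^ i = q + 1 := ⟨d ^ i - 1, by omega⟩
  have hq1 : 1 ≤ q := by omega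
  have hqr : (d : ℝ) ^ i - 1 = q := by
    have : ((d ^ i : ℕ) : ℝ) = ((q + 1 : ℕ) : ℝ) := by rw [hq]
    push_cast at this
    linarith
  have hq0 : (0 : ℝ) < q := by exact_mod_cast hq1
  have hq1r : (1 : ℝ) ≤ q := by exact_mod_cast hq1
  have hdit : (2 : ℝ) ≤ (d : ℝ) ^ (i + t) := by
    calc (2 : ℝ) ≤ d := hd2
      _ = (d : ℝ) ^ 1 := (pow_one _).symm
      _ ≤ (d : ℝ) ^ (i + t) := pow_le_pow_right₀ (by linarith) (by omega)
  have hq' : 0 < (d : ℝ) ^ (i + t) - 1 := by linarith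
  have hP := pair hq1 hq' (pow_pos h0 2) h1 (pow_pos h0' 2) h1'
  have hM : ν.real (E q (x ^ 2) ∩ E ((d : ℝ) ^ (i + t) - 1) (x' ^ 2)) ≤ 2 * x ^ 2 := by
    rw [← nu_E hq1 (pow_pos h0 2) h1]
    exact measureReal_mono inter_subset_left (measure_ne_top _ _)
  rw [← hqr] at hM
  rw [← hqr] at hP
  -- bound of the error terms
  have e1 : ((d : ℝ) ^ i - 1 + 1) * (4 * x ^ 2 * x' ^ 2 / ((d : ℝ) ^ i - 1)) ≤
      4 * x ^ 2 * x' ^ 2 + 8 * x ^ 2 * x' ^ 2 * (1 / 2) ^ i := by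
    have h5 : ((d : ℝ) ^ i - 1 + 1) * (4 * x ^ 2 * x' ^ 2 / ((d : ℝ) ^ i - 1)) =
        4 * x ^ 2 * x' ^ 2 + 4 * x ^ 2 * x' ^ 2 * (1 / ((d : ℝ) ^ i - 1)) := by
      rw [hqr]
      field_simp
    rw [h5]
    have h6 : 1 / ((d : ℝ) ^ i - 1) ≤ 2 * (1 / 2) ^ i := by
      have h7 : (2 : ℝ) ^ i ≤ (d : ℝ) ^ i := pow_le_pow_left₀ (by norm_num) hd2 i
      have h8 : (2 : ℝ) ≤ 2 ^ i := by exact_mod_cast h2i
      rw [div_le_iff₀ (by linarith), div_pow, one_pow]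
      have h9 : (2 : ℝ) * (1 / 2 ^ i) * ((d : ℝ) ^ i - 1) = 2 * ((d : ℝ) ^ i - 1) / 2 ^ i := by ring
      rw [h9, le_div_iff₀ (by positivity)]
      linarith
    have h10 : 4 * x ^ 2 * x' ^ 2 * (1 / ((d : ℝ) ^ i - 1)) ≤
        4 * x ^ 2 * x' ^ 2 * (2 * (1 / 2) ^ i) := mul_le_mul_of_nonneg_left h6 (by positivity)
    linarith
  have e2 : ((d : ℝ) ^ i - 1 + 1) * (4 * x' ^ 2 / ((d : ℝ) ^ (i + t) - 1)) ≤
      8 * x' ^ 2 * (1 / 2) ^ t := by
    have h5 : ((d : ℝ) ^ i - 1 + 1) * (4 * x' ^ 2 / ((d : ℝ) ^ (i + t) - 1)) =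
        4 * x' ^ 2 * ((d : ℝ) ^ i / ((d : ℝ) ^ (i + t) - 1)) := by ring
    rw [h5]
    have h6 : (d : ℝ) ^ i / ((d : ℝ) ^ (i + t) - 1) ≤ 2 * (1 / 2) ^ t := by
      have h7 : (2 : ℝ) ^ t ≤ (d : ℝ) ^ t := pow_le_pow_left₀ (by norm_num) hd2 t
      rw [div_le_iff₀ hq', div_pow, one_pow]
      have h9 : (2 : ℝ) * (1 / 2 ^ t) * ((d : ℝ) ^ (i + t) - 1) =
        2 * ((d : ℝ) ^ (i + t) - 1) / 2 ^ t := by ring
      rw [h9, le_div_iff₀ (by positivity)]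
      have h10 : (d : ℝ) ^ i * 2 ^ t ≤ (d : ℝ) ^ (i + t) := by
        rw [pow_add]
        exact mul_le_mul_of_nonneg_left h7 (by positivity)
      linarith
    have h10 := mul_le_mul_of_nonneg_left h6 (by positivity : (0 : ℝ) ≤ 4 * x' ^ 2)
    linarith
  rw [← r_pow_sq] at e1 e2
  set u : ℝ := r ^ i with hu
  set v : ℝ := r ^ t with hv
  have hu0 : 0 < u := pow_pos r_pos i
  have hv0 : 0 < v := pow_pos r_pos t
  have hu1 : u ≤ 1 := pow_le_one₀ r_pos.le r_lt.le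
  have hx1 : x ≤ 1 := by nlinarith
  have hx1' : x' ≤ 1 := by nlinarith
  have hxx : x * x' ≤ 1 := mul_le_one₀ hx1 h0'.le hx1'
  have hxx0 : 0 < x * x' := mul_pos h0 h0'
  have hxu : 8 * x ^ 2 * x' ^ 2 * u ^ 2 ≤ 8 * x * x' * u := by
    have h11 : x * x' * u ≤ 1 := mul_le_one₀ hxx hu0.le hu1
    have h12 : 8 * x ^ 2 * x' ^ 2 * u ^ 2 = 8 * (x * x' * u) * (x * x' * u) := by ring
    rw [h12]
    have h13 : 0 < x * x' * u := mul_pos hxx0 hu0
    nlinarith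
  rcases le_total (x' * v) x with hc | hc
  · have h14 : 8 * x' ^ 2 * v ^ 2 ≤ 8 * x * x' * v := by
      have h15 : 8 * x' ^ 2 * v ^ 2 = 8 * (x' * v) * (x' * v) := by ring
      have h16 : 8 * x * x' * v = 8 * x * (x' * v) := by ring
      rw [h15, h16]
      have h17 : 0 < x' * v := mul_pos h0' hv0
      nlinarith
    have h18 : ((d : ℝ) ^ i - 1 + 1) * (4 * x ^ 2 * x' ^ 2 / ((d : ℝ) ^ i - 1) +
        4 * x' ^ 2 / ((d : ℝ) ^ (i + t) - 1)) =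
        ((d : ℝ) ^ i - 1 + 1) * (4 * x ^ 2 * x' ^ 2 / ((d : ℝ) ^ i - 1)) +
        ((d : ℝ) ^ i - 1 + 1) * (4 * x' ^ 2 / ((d : ℝ) ^ (i + t) - 1)) := by ring
    rw [h18] at hP
    linarith
  · have h14 : 2 * x ^ 2 ≤ 8 * x * x' * v := by
      have h15 : 8 * x * x' * v = 8 * x * (x' * v) := by ring
      rw [h15]
      nlinarith
    have h16 : 0 < 8 * x * x' * u := by positivity
    have h17 : 0 < 2 * x ^ 2 * (2 * x' ^ 2) := by positivity
    linarith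

theorem ind_memLp {A : Set ℝ} (hA : MeasurableSet A) :
    MemLp (A.indicator (fun _ => (1 : ℝ))) 2 ν :=
  memLp_indicator_const 2 hA 1 (Or.inr (measure_ne_top _ _))

theorem ind_mean {A : Set ℝ} (hA : MeasurableSet A) :
    ∫ θ, A.indicator (fun _ => (1 : ℝ)) θ ∂ν = ν.real A := by
  rw [integral_indicator hA, setIntegral_const, smul_eq_mul, mul_one]

theorem cov_ind {A B : Set ℝ} (hA : MeasurableSet A) (hB : MeasurableSet B) :
    cov[A.indicator (fun _ => (1 : ℝ)), B.indicator (fun _ => (1 : ℝ)); ν] =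
      ν.real (A ∩ B) - ν.real A * ν.real B := by
  rw [covariance_eq_sub (ind_memLp hA) (ind_memLp hB), ind_mean hA, ind_mean hB]
  congr 1
  rw [← ind_mean (hA.inter hB)]
  refine integral_congr_ae (Eventually.of_forall fun θ => ?_)
  by_cases h1 : θ ∈ A <;> by_cases h2 : θ ∈ B <;> simp [h1, h2]

/-- a close return -/
def A (d : ℕ) (b : ℝ) (p : ℕ × ℕ) : Set ℝ := E ((d : ℝ) ^ p.1 - 1) (b / (d : ℝ) ^ p.2)

theorem A_meas (d : ℕ) (b : ℝ) (p : ℕ × ℕ) : MeasurableSet (A d b p) := E_meas _ _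

/-- the number of the close returns -/
noncomputable def X (d : ℕ) (b : ℝ) (s : Finset (ℕ × ℕ)) (θ : ℝ) : ℝ :=
  ∑ p ∈ s, (A d b p).indicator (fun _ => (1 : ℝ)) θ

section

variable {d : ℕ} {b : ℝ}

theorem del_pos (hd : 2 ≤ d) (hb : 0 < b) (l : ℕ) : 0 < b / (d : ℝ) ^ l := by
  have : (0 : ℝ) < d := by exact_mod_cast (by omega : 0 < d)
  positivity

theorem del_le (hd : 2 ≤ d) (hb : 0 < b) (hb1 : b ≤ 1 / 2) (l : ℕ) : b / (d : ℝ) ^ l ≤ 1 / 2 := by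
  have h1 : (1 : ℝ) ≤ (d : ℝ) ^ l := one_le_pow₀ (by exact_mod_cast (by omega : 1 ≤ d))
  rw [div_le_iff₀ (by linarith)]
  nlinarith

theorem del_le' (hd : 2 ≤ d) (hb1 : b ≤ 1 / 2) (l : ℕ) :
    √(b / (d : ℝ) ^ l) ≤ r ^ l := by
  rw [Real.sqrt_le_left (pow_pos r_pos l).le, r_pow_sq, div_pow, one_pow]
  have h7 : (2 : ℝ) ^ l ≤ (d : ℝ) ^ l := pow_le_pow_left₀ (by norm_num) (by exact_mod_cast hd) l
  have h8 : (0 : ℝ) < 2 ^ l := by positivity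
  rw [div_le_div_iff₀ (by linarith) h8]
  nlinarith

theorem nu_A (hd : 2 ≤ d) (hb : 0 < b) (hb1 : b ≤ 1 / 2) {p : ℕ × ℕ} (hp : 1 ≤ p.1) :
    ν.real (A d b p) = 2 * (b / (d : ℝ) ^ p.2) := by
  have h1 : 2 ≤ d ^ p.1 := by
    calc 2 ≤ d := hd
      _ = d ^ 1 := (pow_one d).symm
      _ ≤ d ^ p.1 := Nat.pow_le_pow_right (by omega) hp
  obtain ⟨q, hq⟩ : ∃ q : ℕ, d ^ p.1 = q + 1 := ⟨d ^ p.1 - 1, by omega⟩
  have hqr : (d : ℝ) ^ p.1 - 1 = q := by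
    have : ((d ^ p.1 : ℕ) : ℝ) = ((q + 1 : ℕ) : ℝ) := by rw [hq]
    push_cast at this
    linarith
  unfold A
  rw [hqr]
  exact nu_E (by omega) (del_pos hd hb _) (del_le hd hb hb1 _)

theorem cov_lt (hd : 2 ≤ d) (hb : 0 < b) (hb1 : b ≤ 1 / 2) {p p' : ℕ × ℕ} (hp : 1 ≤ p.1)
    (hlt : p.1 < p'.1) :
    ν.real (A d b p ∩ A d b p') - 2 * (b / (d : ℝ) ^ p.2) * (2 * (b / (d : ℝ) ^ p'.2)) ≤
      8 * r ^ p.2 * r ^ p'.2 * (r ^ p.1 + r ^ (p'.1 - p.1)) := by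
  have h1 := del_pos hd hb p.2
  have h1' := del_pos hd hb p'.2
  have h2 : √(b / (d : ℝ) ^ p.2) ^ 2 = b / (d : ℝ) ^ p.2 := Real.sq_sqrt h1.le
  have h2' : √(b / (d : ℝ) ^ p'.2) ^ 2 = b / (d : ℝ) ^ p'.2 := Real.sq_sqrt h1'.le
  have h3 := pair_lt hd (x := √(b / (d : ℝ) ^ p.2)) (x' := √(b / (d : ℝ) ^ p'.2))
    (Real.sqrt_pos.2 h1) (by rw [h2]; exact del_le hd hb hb1 _) (Real.sqrt_pos.2 h1')
    (by rw [h2']; exact del_le hd hb hb1 _) hp (t := p'.1 - p.1) (by omega)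
  rw [h2, h2', show p.1 + (p'.1 - p.1) = p'.1 by omega] at h3
  refine h3.trans ?_
  have h4 := del_le' hd hb1 p.2
  have h4' := del_le' hd hb1 p'.2
  have h5 : 0 < r ^ p.1 + r ^ (p'.1 - p.1) := add_pos (pow_pos r_pos _) (pow_pos r_pos _)
  apply mul_le_mul_of_nonneg_right _ h5.le
  have h6 : √(b / (d : ℝ) ^ p.2) * √(b / (d : ℝ) ^ p'.2) ≤ r ^ p.2 * r ^ p'.2 :=
    mul_le_mul h4 h4' (Real.sqrt_nonneg _) (pow_pos r_pos _).le
  linarith

theorem cov_eq (hd : 2 ≤ d) (hb : 0 < b) (hb1 : b ≤ 1 / 2) {p p' : ℕ × ℕ} (hp : 1 ≤ p.1)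
    (hp' : 1 ≤ p'.1) : ν.real (A d b p ∩ A d b p') ≤ 8 * r ^ p.2 * r ^ p'.2 := by
  have h1 := del_pos hd hb p.2
  have h1' := del_pos hd hb p'.2
  have h2 : √(b / (d : ℝ) ^ p.2) ^ 2 = b / (d : ℝ) ^ p.2 := Real.sq_sqrt h1.le
  have h2' : √(b / (d : ℝ) ^ p'.2) ^ 2 = b / (d : ℝ) ^ p'.2 := Real.sq_sqrt h1'.le
  have h3 : ν.real (A d b p ∩ A d b p') ≤ 2 * (b / (d : ℝ) ^ p.2) := by
    rw [← nu_A hd hb hb1 hp]
    exact measureReal_mono inter_subset_left (measure_ne_top _ _)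
  have h3' : ν.real (A d b p ∩ A d b p') ≤ 2 * (b / (d : ℝ) ^ p'.2) := by
    rw [← nu_A hd hb hb1 hp']
    exact measureReal_mono inter_subset_right (measure_ne_top _ _)
  have h4 := del_le' hd hb1 p.2
  have h4' := del_le' hd hb1 p'.2
  have h6 : √(b / (d : ℝ) ^ p.2) * √(b / (d : ℝ) ^ p'.2) ≤ r ^ p.2 * r ^ p'.2 :=
    mul_le_mul h4 h4' (Real.sqrt_nonneg _) (pow_pos r_pos _).le
  have h7 := Real.sqrt_pos.2 h1
  have h7' := Real.sqrt_pos.2 h1'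
  rw [← h2] at h3
  rw [← h2'] at h3'
  have h8 : 0 < √(b / (d : ℝ) ^ p.2) * √(b / (d : ℝ) ^ p'.2) := mul_pos h7 h7'
  rcases le_total (√(b / (d : ℝ) ^ p.2)) (√(b / (d : ℝ) ^ p'.2)) with hc | hc
  · nlinarith
  · nlinarith

theorem cov_bd (hd : 2 ≤ d) (hb : 0 < b) (hb1 : b ≤ 1 / 2) {p p' : ℕ × ℕ} (hp : 1 ≤ p.1)
    (hp' : 1 ≤ p'.1) :
    ν.real (A d b p ∩ A d b p') - ν.real (A d b p) * ν.real (A d b p') ≤
      8 * r ^ p.2 * r ^ p'.2 * (r ^ p.1 + r ^ p'.1 + r ^ ((p.1 - p'.1) + (p'.1 - p.1))) := by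
  rw [nu_A hd hb hb1 hp, nu_A hd hb hb1 hp']
  have hpp : 0 < 8 * r ^ p.2 * r ^ p'.2 :=
    mul_pos (mul_pos (by norm_num) (pow_pos r_pos _)) (pow_pos r_pos _)
  have h1 : 0 < r ^ p.1 := pow_pos r_pos _
  have h1' : 0 < r ^ p'.1 := pow_pos r_pos _
  rcases lt_trichotomy p.1 p'.1 with h | h | h
  · refine (cov_lt hd hb hb1 hp h).trans ?_
    apply mul_le_mul_of_nonneg_left _ hpp.le
    rw [show (p.1 - p'.1) + (p'.1 - p.1) = p'.1 - p.1 by omega]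
    linarith
  · have h2 := cov_eq hd hb hb1 hp hp'
    have h3 := del_pos hd hb p.2
    have h3' := del_pos hd hb p'.2
    rw [show (p.1 - p'.1) + (p'.1 - p.1) = 0 by omega, pow_zero]
    have h4 : 0 < 2 * (b / (d : ℝ) ^ p.2) * (2 * (b / (d : ℝ) ^ p'.2)) := by positivity
    nlinarith
  · have h2 := cov_lt hd hb hb1 hp' h
    rw [inter_comm] at h2
    have h3 : 2 * (b / (d : ℝ) ^ p.2) * (2 * (b / (d : ℝ) ^ p'.2)) =
      2 * (b / (d : ℝ) ^ p'.2) * (2 * (b / (d : ℝ) ^ p.2)) := by ring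
    rw [h3]
    refine h2.trans ?_
    rw [show (p.1 - p'.1) + (p'.1 - p.1) = p.1 - p'.1 by omega]
    have h4 : 8 * r ^ p'.2 * r ^ p.2 = 8 * r ^ p.2 * r ^ p'.2 := by ring
    rw [h4]
    apply mul_le_mul_of_nonneg_left _ hpp.le
    linarith

/-- the sum of the geometric series -/
noncomputable def R : ℝ := (1 - r)⁻¹

theorem R_pos : 0 < R := inv_pos.2 (by linarith [r_lt])

theorem geo (T : Finset ℕ) : ∑ i ∈ T, r ^ i ≤ R := by
  unfold R
  rw [← tsum_geometric_of_lt_one r_pos.le r_lt]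
  exact (summable_geometric_of_lt_one r_pos.le r_lt).sum_le_tsum _
    fun i _ => (pow_pos r_pos i).le

theorem geo_dist (T : Finset ℕ) (i : ℕ) : ∑ j ∈ T, r ^ ((i - j) + (j - i)) ≤ 2 * R := by
  have h1 : ∑ j ∈ T with j ≤ i, r ^ ((i - j) + (j - i)) ≤ R := by
    have h2 : ∑ j ∈ T with j ≤ i, r ^ ((i - j) + (j - i)) =
        ∑ t ∈ (T.filter fun j => j ≤ i).image fun j => i - j, r ^ t := by
      rw [Finset.sum_image]
      · refine Finset.sum_congr rfl fun j hj => ?_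
        have := (Finset.mem_filter.1 hj).2
        rw [show (i - j) + (j - i) = i - j by omega]
      · intro x hx y hy hxy
        have h3 := (Finset.mem_filter.1 (Finset.mem_coe.1 hx)).2
        have h4 := (Finset.mem_filter.1 (Finset.mem_coe.1 hy)).2
        simp only at hxy
        omega
    rw [h2]
    exact geo _
  have h1' : ∑ j ∈ T with ¬ j ≤ i, r ^ ((i - j) + (j - i)) ≤ R := by
    have h2 : ∑ j ∈ T with ¬ j ≤ i, r ^ ((i - j) + (j - i)) =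
        ∑ t ∈ (T.filter fun j => ¬ j ≤ i).image fun j => j - i, r ^ t := by
      rw [Finset.sum_image]
      · refine Finset.sum_congr rfl fun j hj => ?_
        have := (Finset.mem_filter.1 hj).2
        rw [show (i - j) + (j - i) = j - i by omega]
      · intro x hx y hy hxy
        have h3 := (Finset.mem_filter.1 (Finset.mem_coe.1 hx)).2
        have h4 := (Finset.mem_filter.1 (Finset.mem_coe.1 hy)).2
        simp only at hxy
        omega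
    rw [h2]
    exact geo _
  rw [← Finset.sum_filter_add_sum_filter_not T (fun j => j ≤ i)]
  linarith

theorem sum_w (M : ℕ) : ∑ i ∈ Finset.Icc 1 M, ∑ j ∈ Finset.Icc 1 M,
    (r ^ i + r ^ j + r ^ ((i - j) + (j - i))) ≤ 4 * R * M := by
  have h1 : ∀ i : ℕ, ∑ j ∈ Finset.Icc 1 M, (r ^ i + r ^ j + r ^ ((i - j) + (j - i))) ≤
      M * r ^ i + 3 * R := by
    intro i
    rw [Finset.sum_add_distrib, Finset.sum_add_distrib, Finset.sum_const, nsmul_eq_mul,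
      Nat.card_Icc, Nat.add_sub_cancel]
    have := geo (Finset.Icc 1 M)
    have := geo_dist (Finset.Icc 1 M) i
    linarith
  refine (Finset.sum_le_sum fun i _ => h1 i).trans ?_
  rw [Finset.sum_add_distrib, ← Finset.mul_sum, Finset.sum_const, nsmul_eq_mul,
      Nat.card_Icc, Nat.add_sub_cancel]
  have h2 := mul_le_mul_of_nonneg_left (geo (Finset.Icc 1 M)) (Nat.cast_nonneg (α := ℝ) M)
  linarith

/-- the index set -/
noncomputable def S (J M L : ℕ) : Finset (ℕ × ℕ) := Finset.Icc 1 M ×ˢ Finset.Ico J L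

theorem sum_cov (J M L : ℕ) : ∑ p ∈ S J M L, ∑ p' ∈ S J M L,
    8 * r ^ p.2 * r ^ p'.2 * (r ^ p.1 + r ^ p'.1 + r ^ ((p.1 - p'.1) + (p'.1 - p.1))) ≤
      32 * R ^ 3 * M := by
  have h1 : ∑ p ∈ S J M L, ∑ p' ∈ S J M L,
      8 * r ^ p.2 * r ^ p'.2 * (r ^ p.1 + r ^ p'.1 + r ^ ((p.1 - p'.1) + (p'.1 - p.1))) =
      8 * (∑ l ∈ Finset.Ico J L, r ^ l) * (∑ l ∈ Finset.Ico J L, r ^ l) *
      ∑ i ∈ Finset.Icc 1 M, ∑ j ∈ Finset.Icc 1 M, (r ^ i + r ^ j + r ^ ((i - j) + (j - i))) := by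
    unfold S
    rw [Finset.sum_product]
    simp only [Finset.sum_product, Finset.mul_sum, Finset.sum_mul]
    refine Finset.sum_congr rfl fun i _ => ?_
    rw [Finset.sum_comm]
    refine Finset.sum_congr rfl fun j _ => ?_
    exact Finset.sum_congr rfl fun x _ => Finset.sum_congr rfl fun y _ => by ring
  rw [h1]
  have h2 := geo (Finset.Ico J L)
  have h3 : 0 ≤ ∑ l ∈ Finset.Ico J L, r ^ l := Finset.sum_nonneg fun i _ => (pow_pos r_pos i).le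
  have h4 : (∑ l ∈ Finset.Ico J L, r ^ l) * (∑ l ∈ Finset.Ico J L, r ^ l) ≤ R * R :=
    mul_le_mul h2 h2 h3 R_pos.le
  have h5 : 0 ≤ ∑ i ∈ Finset.Icc 1 M, ∑ j ∈ Finset.Icc 1 M,
      (r ^ i + r ^ j + r ^ ((i - j) + (j - i))) :=
    Finset.sum_nonneg fun i _ => Finset.sum_nonneg fun j _ => by
      have := pow_pos r_pos i
      have := pow_pos r_pos j
      have := pow_pos r_pos ((i - j) + (j - i))
      linarith
  have h6 := mul_le_mul h4 (sum_w M) h5 (mul_nonneg R_pos.le R_pos.le)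
  nlinarith

theorem X_memLp (s : Finset (ℕ × ℕ)) : MemLp (X d b s) 2 ν :=
  memLp_finsetSum _ fun p _ => ind_memLp (A_meas d b p)

theorem X_var (hd : 2 ≤ d) (hb : 0 < b) (hb1 : b ≤ 1 / 2) (J M L : ℕ) :
    variance (X d b (S J M L)) ν ≤ 32 * R ^ 3 * M := by
  have h0 : variance (X d b (S J M L)) ν = ∑ p ∈ S J M L, ∑ p' ∈ S J M L,
      cov[(A d b p).indicator (fun _ => (1 : ℝ)), (A d b p').indicator (fun _ => (1 : ℝ)); ν] :=
    variance_fun_sum' fun p _ => ind_memLp (A_meas d b p)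
  rw [h0]
  refine le_trans ?_ (sum_cov J M L)
  refine Finset.sum_le_sum fun p hp => Finset.sum_le_sum fun p' hp' => ?_
  rw [cov_ind (A_meas d b p) (A_meas d b p')]
  unfold S at hp hp'
  exact cov_bd hd hb hb1 (Finset.mem_Icc.1 (Finset.mem_product.1 hp).1).1
    (Finset.mem_Icc.1 (Finset.mem_product.1 hp').1).1

theorem X_mean (hd : 2 ≤ d) (hb : 0 < b) (hb1 : b ≤ 1 / 2) (J M L : ℕ) :
    ∫ θ, X d b (S J M L) θ ∂ν ≤ 4 * b * M / (d : ℝ) ^ J := by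
  unfold X
  rw [integral_finsetSum _ fun p _ => (ind_memLp (A_meas d b p)).integrable (by norm_num)]
  have h1 : ∑ p ∈ S J M L, ∫ θ, (A d b p).indicator (fun _ => (1 : ℝ)) θ ∂ν =
      ∑ p ∈ S J M L, 2 * (b / (d : ℝ) ^ p.2) := by
    refine Finset.sum_congr rfl fun p hp => ?_
    unfold S at hp
    rw [ind_mean (A_meas d b p), nu_A hd hb hb1 (Finset.mem_Icc.1 (Finset.mem_product.1 hp).1).1]
  rw [h1]
  unfold S
  rw [Finset.sum_product]
  change ∑ _x ∈ Finset.Icc 1 M, ∑ y ∈ Finset.Ico J L, 2 * (b / (d : ℝ) ^ y) ≤ _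
  rw [Finset.sum_const, nsmul_eq_mul, Nat.card_Icc, Nat.add_sub_cancel]
  have hd2 : (2 : ℝ) ≤ d := by exact_mod_cast hd
  have hd0 : (0 : ℝ) < (d : ℝ) ^ J := by positivity
  have h2 : ∑ l ∈ Finset.Ico J L, 2 * (b / (d : ℝ) ^ l) =
      2 * b * ∑ l ∈ Finset.Ico J L, (1 / (d : ℝ)) ^ l := by
    rw [Finset.mul_sum]
    refine Finset.sum_congr rfl fun l _ => ?_
    rw [div_pow, one_pow]
    ring
  have hx : (1 / (d : ℝ)) ≤ 1 / 2 := one_div_le_one_div_of_le (by norm_num) hd2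
  have hx0 : 0 ≤ (1 / (d : ℝ)) := by positivity
  have h3 : ∑ l ∈ Finset.Ico J L, (1 / (d : ℝ)) ^ l ≤ 2 / (d : ℝ) ^ J := by
    refine (geom_sum_Ico_le_of_lt_one hx0 (by linarith)).trans ?_
    rw [div_pow, one_pow, div_le_iff₀ (by linarith)]
    rw [div_mul_eq_mul_div, div_le_div_iff_of_pos_right hd0]
    linarith
  rw [h2]
  have h4 : 4 * b * M / (d : ℝ) ^ J = M * (2 * b * (2 / (d : ℝ) ^ J)) := by ring
  rw [h4]
  exact mul_le_mul_of_nonneg_left (mul_le_mul_of_nonneg_left h3 (by linarith)) (Nat.cast_nonneg _)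

theorem X_mono {s t : Finset (ℕ × ℕ)} (h : s ⊆ t) (θ : ℝ) : X d b s θ ≤ X d b t θ := by
  unfold X
  exact Finset.sum_le_sum_of_subset_of_nonneg h fun p _ _ =>
    Set.indicator_nonneg (fun _ _ => zero_le_one) _

theorem X_tail (hd : 2 ≤ d) (hb : 0 < b) (hb1 : b ≤ 1 / 2) (J M L : ℕ) (hM : 1 ≤ M) :
    ν {θ | 5 * b * M / (d : ℝ) ^ J < X d b (S J M L) θ} ≤
      ENNReal.ofReal (32 * R ^ 3 * ((d : ℝ) ^ J / b) ^ 2 * (1 / M)) := by
  have hd0 : (0 : ℝ) < d := by exact_mod_cast (by omega : 0 < d)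
  have hM0 : (0 : ℝ) < M := by exact_mod_cast hM
  have hc : 0 < b * M / (d : ℝ) ^ J := by positivity
  have h1 : {θ | 5 * b * M / (d : ℝ) ^ J < X d b (S J M L) θ} ⊆
      {θ | b * M / (d : ℝ) ^ J ≤ |X d b (S J M L) θ - ∫ θ', X d b (S J M L) θ' ∂ν|} := by
    intro θ hθ
    simp only [Set.mem_ofPred_eq] at hθ ⊢
    have h2 := X_mean hd hb hb1 J M L
    refine le_trans ?_ (le_abs_self _)
    have h3 : 5 * b * M / (d : ℝ) ^ J = b * M / (d : ℝ) ^ J + 4 * b * M / (d : ℝ) ^ J := by ring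
    linarith
  refine (measure_mono h1).trans
    ((meas_ge_le_variance_div_sq (X_memLp _) hc).trans (ENNReal.ofReal_le_ofReal ?_))
  rw [div_le_iff₀ (by positivity)]
  refine (X_var hd hb hb1 J M L).trans (le_of_eq ?_)
  field_simp

theorem bad_le (hd : 2 ≤ d) (hb : 0 < b) (hb1 : b ≤ 1 / 2) (J M : ℕ) (hM : 1 ≤ M) :
    ν {θ | ∃ L, 5 * b * M / (d : ℝ) ^ J < X d b (S J M L) θ} ≤
      ENNReal.ofReal (32 * R ^ 3 * ((d : ℝ) ^ J / b) ^ 2 * (1 / M)) := by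
  have h1 : {θ | ∃ L, 5 * b * M / (d : ℝ) ^ J < X d b (S J M L) θ} =
      ⋃ L, {θ | 5 * b * M / (d : ℝ) ^ J < X d b (S J M L) θ} := by
    ext θ
    simp
  rw [h1, Monotone.measure_iUnion]
  · exact iSup_le fun L => X_tail hd hb hb1 J M L hM
  · intro L L' hL θ hθ
    simp only [Set.mem_ofPred_eq] at hθ ⊢
    refine hθ.trans_le (X_mono ?_ θ)
    unfold S
    exact Finset.product_subset_product_right (Finset.Ico_subset_Ico_right hL)

theorem ae_ev (hd : 2 ≤ d) (hb : 0 < b) (hb1 : b ≤ 1 / 2) (J : ℕ) :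
    ∀ᵐ θ ∂ν, ∀ᶠ k : ℕ in atTop, ∀ L, X d b (S J (2 ^ k) L) θ ≤ 5 * b * 2 ^ k / (d : ℝ) ^ J := by
  have hs : ∀ k : ℕ, ν {θ | ∃ L, 5 * b * (2 ^ k : ℕ) / (d : ℝ) ^ J < X d b (S J (2 ^ k) L) θ} ≤
      ENNReal.ofReal (32 * R ^ 3 * ((d : ℝ) ^ J / b) ^ 2 * (1 / 2) ^ k) := by
    intro k
    refine (bad_le hd hb hb1 J (2 ^ k) (Nat.one_le_two_pow)).trans (le_of_eq ?_)
    congr 2
    push_cast
    rw [div_pow, one_pow]
  have hsum : Summable fun k : ℕ => 32 * R ^ 3 * ((d : ℝ) ^ J / b) ^ 2 * (1 / 2) ^ k :=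
    (summable_geometric_of_lt_one (by norm_num) (by norm_num)).mul_left _
  have hfin : ∑' k, ν {θ | ∃ L, 5 * b * (2 ^ k : ℕ) / (d : ℝ) ^ J < X d b (S J (2 ^ k) L) θ} ≠ ⊤ :=
    ne_top_of_le_ne_top hsum.tsum_ofReal_ne_top (ENNReal.tsum_le_tsum hs)
  filter_upwards [ae_eventually_notMem hfin] with θ hθ
  filter_upwards [hθ] with k hk L
  simp only [not_exists, not_lt] at hk
  have := hk L
  push_cast at this
  exact this

/-- a good angle -/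
def Good (d : ℕ) (θ : ℝ) : Prop := ∀ b : ℚ, (0 : ℝ) < b → (b : ℝ) ≤ 1 / 2 → ∀ J : ℕ,
  ∀ᶠ k : ℕ in atTop, ∀ L, X d b (S J (2 ^ k) L) θ ≤ 5 * b * 2 ^ k / (d : ℝ) ^ J

theorem good_nu (hd : 2 ≤ d) : ∀ᵐ θ ∂ν, Good d θ := by
  unfold Good
  rw [ae_all_iff]
  intro b
  by_cases hb : (0 : ℝ) < b
  · by_cases hb1 : (b : ℝ) ≤ 1 / 2
    · have h := ae_all_iff.2 fun J => ae_ev hd hb hb1 J
      filter_upwards [h] with θ hθ _ _ J
      exact hθ J
    · exact Eventually.of_forall fun θ _ h => absurd h hb1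
  · exact Eventually.of_forall fun θ h => absurd h hb

theorem A_per (p : ℕ × ℕ) (θ : ℝ) (n : ℤ) : θ + n ∈ A d b p ↔ θ ∈ A d b p := by
  unfold A E
  simp only [Set.mem_ofPred_eq]
  constructor
  · rintro ⟨j, hj⟩
    refine ⟨j - ((d : ℤ) ^ p.1 - 1) * n, ?_⟩
    push_cast
    convert hj using 2
    ring
  · rintro ⟨j, hj⟩
    refine ⟨j + ((d : ℤ) ^ p.1 - 1) * n, ?_⟩
    push_cast
    convert hj using 2
    ring

theorem X_per (s : Finset (ℕ × ℕ)) (θ : ℝ) (n : ℤ) : X d b s (θ + n) = X d b s θ := by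
  unfold X
  refine Finset.sum_congr rfl fun p _ => ?_
  by_cases h : θ ∈ A d b p
  · rw [Set.indicator_of_mem h, Set.indicator_of_mem ((A_per p θ n).2 h)]
  · rw [Set.indicator_of_notMem h, Set.indicator_of_notMem fun h' => h ((A_per p θ n).1 h')]

theorem Good_per (θ : ℝ) (n : ℤ) : Good d (θ + n) ↔ Good d θ := by
  unfold Good
  simp only [X_per]

theorem good_ae (hd : 2 ≤ d) : ∀ᵐ θ : ℝ, Good d θ := by
  have h1 := good_nu hd
  unfold ν at h1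
  rw [ae_restrict_iff' measurableSet_Ioc, ae_iff] at h1
  rw [ae_iff]
  have h2 : {θ : ℝ | ¬ Good d θ} ⊆ ⋃ n : ℤ, (fun θ : ℝ => θ + n) ⁻¹'
      {θ : ℝ | ¬ (θ ∈ Ioc (0 : ℝ) 1 → Good d θ)} := by
    intro θ hθ
    rw [mem_iUnion]
    refine ⟨1 - ⌈θ⌉, ?_⟩
    show ¬ (θ + ((1 - ⌈θ⌉ : ℤ) : ℝ) ∈ Ioc (0 : ℝ) 1 → Good d (θ + ((1 - ⌈θ⌉ : ℤ) : ℝ)))
    rw [Good_per]
    intro h
    apply hθ
    apply h
    push_cast
    have := Int.le_ceil θ
    have := Int.ceil_lt_add_one θ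
    constructor <;> linarith
  refine measure_mono_null h2 (measure_iUnion_null fun n => ?_)
  rw [measure_preimage_add_right]
  exact h1

theorem card_le_X {a : ℝ} (hab : a ≤ b) (hd : 2 ≤ d) {M K J : ℕ} (hMK : M ≤ K)
    {θ : ℝ} (t : Finset (ℕ × ℕ)) (ht : (t : Set (ℕ × ℕ)) ⊆ {p : ℕ × ℕ | 1 ≤ p.1 ∧ p.1 ≤ M ∧ J ≤ p.2 ∧
      ∃ j : ℤ, |(d : ℝ) ^ p.1 * θ - θ - j| < a / (d : ℝ) ^ p.2}) :
    ∃ L, (t.card : ℝ) ≤ X d b (S J K L) θ := by
  refine ⟨t.sup Prod.snd + 1, ?_⟩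
  have hd0 : (0 : ℝ) < d := by exact_mod_cast (by omega : 0 < d)
  have h1 : t ⊆ S J K (t.sup Prod.snd + 1) := by
    intro p hp
    obtain ⟨h2, h3, h4, -⟩ := ht hp
    unfold S
    rw [Finset.mem_product, Finset.mem_Icc, Finset.mem_Ico]
    have h5 : p.2 ≤ t.sup Prod.snd := Finset.le_sup (f := Prod.snd) hp
    omega
  refine le_trans (le_of_eq ?_) (X_mono h1 θ)
  unfold X
  have h2 : ∀ p ∈ t, (A d b p).indicator (fun _ => (1 : ℝ)) θ = 1 := by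
    intro p hp
    obtain ⟨-, -, -, j, hj⟩ := ht hp
    rw [Set.indicator_of_mem]
    refine ⟨j, ?_⟩
    have h3 : ((d : ℝ) ^ p.1 - 1) * θ - j = (d : ℝ) ^ p.1 * θ - θ - j := by ring
    rw [h3]
    exact hj.trans_le (div_le_div_of_nonneg_right hab (by positivity))
  rw [Finset.sum_congr rfl h2, Finset.sum_const, nsmul_eq_mul, mul_one]

end

theorem main : Pool.Agent.Y298.LC.S_ANG1 := by
  intro d hd
  filter_upwards [good_ae hd] with θ hθ
  intro a ha ha4 J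
  have hd0 : (0 : ℝ) < d := by exact_mod_cast (by omega : 0 < d)
  obtain ⟨b, hab, hb⟩ := exists_rat_btwn (show a < 8 / 5 * a by linarith)
  have hb0 : (0 : ℝ) < b := ha.trans hab
  obtain ⟨k₀, hk₀⟩ := eventually_atTop.1 (hθ b hb0 (by linarith) J)
  filter_upwards [eventually_ge_atTop (2 ^ k₀)] with M hM
  have hM1 : 1 ≤ M := Nat.one_le_two_pow.trans hM
  have hM0 : M ≠ 0 := by omega
  have hlog : k₀ ≤ Nat.log 2 M := (Nat.le_log_iff_pow_le (by norm_num) hM0).2 hM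
  have hMk : M ≤ 2 ^ (Nat.log 2 M + 1) := (Nat.lt_pow_succ_log_self (by norm_num) M).le
  have hkM : (2 : ℝ) ^ (Nat.log 2 M + 1) ≤ 2 * M := by
    have h := Nat.pow_log_le_self 2 hM0
    have h' : ((2 ^ Nat.log 2 M : ℕ) : ℝ) ≤ M := by exact_mod_cast h
    push_cast at h'
    rw [pow_succ]
    linarith
  have key : ∀ t : Finset (ℕ × ℕ), (t : Set (ℕ × ℕ)) ⊆ {p : ℕ × ℕ | 1 ≤ p.1 ∧ p.1 ≤ M ∧ J ≤ p.2 ∧
      ∃ j : ℤ, |(d : ℝ) ^ p.1 * θ - θ - j| < a / (d : ℝ) ^ p.2} →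
      (t.card : ℝ) ≤ 16 * a * M / (d : ℝ) ^ J := by
    intro t ht
    obtain ⟨L, hL⟩ := card_le_X hab.le hd hMk t ht
    refine hL.trans ((hk₀ _ (by omega) L).trans ?_)
    apply div_le_div_of_nonneg_right _ (by positivity)
    have hM' : (0 : ℝ) ≤ M := Nat.cast_nonneg _
    calc 5 * (b : ℝ) * 2 ^ (Nat.log 2 M + 1) ≤ 5 * b * (2 * M) :=
          mul_le_mul_of_nonneg_left hkM (by positivity)
      _ ≤ 5 * (8 / 5 * a) * (2 * M) := by
          apply mul_le_mul_of_nonneg_right _ (by positivity)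
          linarith
      _ = 16 * a * M := by ring
  have hfin : {p : ℕ × ℕ | 1 ≤ p.1 ∧ p.1 ≤ M ∧ J ≤ p.2 ∧
      ∃ j : ℤ, |(d : ℝ) ^ p.1 * θ - θ - j| < a / (d : ℝ) ^ p.2}.Finite := by
    by_contra hinf
    obtain ⟨t, ht, htc⟩ := Set.Infinite.exists_subset_card_eq hinf
      (⌊16 * a * M / (d : ℝ) ^ J⌋₊ + 1)
    have h1 := key t ht
    rw [htc] at h1
    have h2 := Nat.lt_floor_add_one (16 * a * M / (d : ℝ) ^ J)
    push_cast at h1
    linarith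
  refine ⟨hfin, ?_⟩
  rw [Set.ncard_eq_toFinset_card _ hfin]
  exact key _ (by simp)

end Pool.Agent.Y274.LC.Ang1
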